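import Pool.Agent.Run7.h570.GH.Iface

/-!
# Project GH (helper570): presentations of flag families, and the pieces PHom and PNon
-/

set_option autoImplicit false

open CategoryTheory AlgebraicGeometry MvPolynomial Pool.Agent.Y116.UV Pool.Agent.Z125.UN
  Pool.Agent.Q282.UZ Run7.h570.GH

namespace Run7.h957.GH

variable {R : Type} [CommRing R]

lemma Is.congr {σ κ : Type} {S T : Fam R σ} {G : κ → MvPolynomial σ R} {w : MvPolynomial σ R}
    (h : ∀ (K : Type) [Field K] [Algebra R K] (x : σ → K), S K x ↔ T K x) (hS : Is S G w) :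
    Is T G w := fun K _ _ x => (h K x).symm.trans (hS K x)

lemma Q_congr {P : Sch R → Prop} {σ : Type} {S T : Fam R σ}
    (h : ∀ (K : Type) [Field K] [Algebra R K] (x : σ → K), S K x ↔ T K x) (hS : Q P S) : Q P T := by
  obtain ⟨κ, G, w, h1, h2⟩ := hS
  exact ⟨κ, G, w, Is.congr h h1, h2⟩

lemma Rep_congr {σ : Type} {S T : Fam R σ}
    (h : ∀ (K : Type) [Field K] [Algebra R K] (x : σ → K), S K x ↔ T K x) (hS : Rep S) : Rep T := by
  obtain ⟨κ, G, w, h1⟩ := hS
  exact ⟨κ, G, w, Is.congr h h1⟩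

lemma Rep_of_Q {P : Sch R → Prop} {σ : Type} {S : Fam R σ} (hS : Q P S) : Rep S := by
  obtain ⟨κ, G, w, h1, _⟩ := hS
  exact ⟨κ, G, w, h1⟩

/-- more equations -/
lemma Rep_eqs {σ ι : Type} {S : Fam R σ} (hS : Rep S) (e : ι → MvPolynomial σ R) :
    Rep (R := R) (fun K _ _ x => S K x ∧ ∀ i, aeval x (e i) = 0) := by
  obtain ⟨κ, G, w, h1⟩ := hS
  refine ⟨κ ⊕ ι, Sum.elim G e, w, fun K _ _ x => ?_⟩
  simp only
  rw [h1 K x]
  simp only [Sum.forall, Sum.elim_inl, Sum.elim_inr]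
  tauto

/-- one more inequation -/
lemma Rep_ne {σ : Type} {S : Fam R σ} (hS : Rep S) (e : MvPolynomial σ R) :
    Rep (R := R) (fun K _ _ x => S K x ∧ aeval x e ≠ 0) := by
  obtain ⟨κ, G, w, h1⟩ := hS
  refine ⟨κ, G, w * e, fun K _ _ x => ?_⟩
  simp only
  rw [h1 K x, map_mul, mul_ne_zero_iff]
  tauto

/-- the whole space -/
lemma Rep_univ {σ : Type} : Rep (fun _ _ _ _ => True : Fam R σ) := by
  refine ⟨Empty, fun e => e.elim, 1, fun K _ _ x => ?_⟩
  simp

/-- an equation with a condition which does not depend on the point -/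
lemma Rep_eqs' {σ ι : Type} {S : Fam R σ} (hS : Rep S) (e : ι → MvPolynomial σ R) (p : ι → Prop) :
    Rep (R := R) (fun K _ _ x => S K x ∧ ∀ i, p i → aeval x (e i) = 0) := by
  refine Rep_congr ?_ (Rep_eqs hS fun i : {i // p i} => e i.1)
  intro K _ _ x
  simp only [Subtype.forall]

section flag

variable {V : Type} [Fintype V] [DecidableEq V] {c : ℕ}

lemma Rep_CoFam (G : SimpleGraph V) (C : Fin c → V) : Rep (CoFam R G C) := by
  classical
  have h1 := Rep_eqs (Rep_univ (R := R) (σ := (V × V) ⊕ (Fin c × V)))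
    (fun q : V × V => X (Sum.inl (q.1, q.2)) - X (Sum.inl (q.2, q.1)))
  have h2 := Rep_eqs' h1 (fun q : V × V => X (Sum.inl (q.1, q.2)))
    (fun q => q.1 ≠ q.2 ∧ ¬ G.Adj q.1 q.2)
  have h3 := Rep_eqs h2 (fun q : Fin c × V => ∑ j, X (Sum.inl (q.2, j)) * X (Sum.inr (q.1, j)))
  have h4 := Rep_eqs h3 (fun q : Fin c × Fin c =>
    X (Sum.inr (q.1, C q.2)) - (if q.1 = q.2 then 1 else 0))
  have h5 := Rep_ne h4 (Matrix.det (Matrix.of fun i j : V =>
    X (Sum.inl (i, j)) + (if i = j then (if j ∈ Set.range C then 1 else 0) else 0)))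
  refine Rep_congr ?_ h5
  intro K _ _ x
  have hdet : aeval x (Matrix.det (Matrix.of fun i j : V =>
      (X (Sum.inl (i, j)) + (if i = j then (if j ∈ Set.range C then 1 else 0) else 0) :
        MvPolynomial ((V × V) ⊕ (Fin c × V)) R))) = (Run7.h570.GH.mt x + ind C).det := by
    rw [AlgHom.map_det]
    congr 1
    ext i j
    simp only [AlgHom.mapMatrix_apply, Matrix.map_apply, Matrix.of_apply, map_add, aeval_X,
      Matrix.add_apply, Run7.h570.GH.mt, ind, Matrix.diagonal_apply]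
    congr 1
    by_cases hij : i = j
    · subst hij
      by_cases hr : i ∈ Set.range C
      · simp [hr]
      · simp [hr]
    · simp [hij]
  rw [hdet]
  simp only [CoFam, Ker, Pat, Prod.forall, map_sub, aeval_X, map_sum, map_mul, true_and,
    sub_eq_zero]
  constructor
  · rintro ⟨⟨⟨⟨h1, h2⟩, h3⟩, h4⟩, h5⟩
    refine ⟨⟨fun i j => h1 i j, fun i j hij hadj => h2 i j ⟨hij, hadj⟩⟩, fun a => ?_, fun a b => ?_,
      h5⟩
    · ext l
      exact h3 a l
    · have := h4 a b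
      simp only [vc]
      rw [this]
      split_ifs <;> simp
  · rintro ⟨⟨h1, h2⟩, h3, h4, h5⟩
    refine ⟨⟨⟨⟨fun i j => h1 i j, fun i j hij => h2 i j hij.1 hij.2⟩, fun a l => ?_⟩,
      fun a b => ?_⟩, h5⟩
    · have := congrFun (h3 a) l
      exact this
    · have := h4 a b
      simp only [vc] at this
      rw [this]
      split_ifs <;> simp

/-- the flag conditions `h` at all vertices, with nonzero entries only at the vertices in `F` -/
def HFam (R : Type) [CommRing R] (G : SimpleGraph V) (C : Fin c → V) (h : V → ℕ) (F : Finset V) :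
    Fam R ((V × V) ⊕ (Fin c × V)) := fun K _ _ x => CoFam R G C K x ∧
  (∀ (a : Fin c) l, h l < a.1 + 1 → vc x a l = 0) ∧
    ∀ l ∈ F, ∀ a : Fin c, h l = a.1 + 1 → vc x a l ≠ 0

lemma Rep_HFam (G : SimpleGraph V) (C : Fin c → V) (h : V → ℕ) (F : Finset V) :
    Rep (HFam R G C h F) := by
  classical
  have h1 := Rep_eqs' (Rep_CoFam (R := R) G C) (fun q : Fin c × V => X (Sum.inr (q.1, q.2)))
    (fun q => h q.2 < q.1.1 + 1)
  have h2 := Rep_ne h1 (∏ l ∈ F, ∏ a : Fin c, if h l = a.1 + 1 then X (Sum.inr (a, l)) else 1)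
  refine Rep_congr ?_ h2
  intro K _ _ x
  simp only [HFam, Prod.forall, aeval_X, map_prod, ne_eq, Finset.prod_eq_zero_iff, vc]
  constructor
  · rintro ⟨⟨h3, h4⟩, h5⟩
    refine ⟨h3, fun a l hl => h4 a l hl, fun l hl a ha h0 => h5 ⟨l, hl, a, Finset.mem_univ _, ?_⟩⟩
    rw [if_pos ha, aeval_X]
    exact h0
  · rintro ⟨h3, h4, h5⟩
    refine ⟨⟨h3, fun a l hl => h4 a l hl⟩, ?_⟩
    rintro ⟨l, hl, a, _, h6⟩
    by_cases ha : h l = a.1 + 1
    · rw [if_pos ha, aeval_X] at h6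
      exact h5 l hl a ha h6
    · rw [if_neg ha, map_one] at h6
      exact one_ne_zero h6

lemma HFam_univ (G : SimpleGraph V) (C : Fin c → V) (h : V → ℕ) (K : Type) [Field K] [Algebra R K]
    (x : (V × V) ⊕ (Fin c × V) → K) :
    HFam R G C h Finset.univ K x ↔ FlagFam R G C h K x := by
  simp only [HFam, FlagFam, CoFam, Flg, Finset.mem_univ, true_implies]
  constructor
  · rintro ⟨h1, h2, h3⟩
    exact ⟨h1, h2, fun a l => h3 l a⟩
  · rintro ⟨h1, h2, h3⟩
    exact ⟨h1, h2, fun l a => h3 a l⟩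

lemma Rep_FlagFam (G : SimpleGraph V) (C : Fin c → V) (h : V → ℕ) :
    Rep (FlagFam R G C h) :=
  Rep_congr (fun K _ _ x => HFam_univ G C h K x) (Rep_HFam G C h Finset.univ)

end flag

/-- **PHom** -/
theorem t_PHom : PHom := by
  intro R _ V _ _ c G C τ K _ _ x t ht hx
  obtain ⟨h1, h2, h3, h4, h5, h6, h7, h8⟩ := hx
  refine ⟨h1, h2, h3, h4, ?_, ?_, ?_, ?_⟩
  · have e := congrArg (fun z : V → K => t • z) h5
    simp only [smul_zero] at e
    rw [← Matrix.mulVec_smul] at e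
    exact e
  · intro b
    have e : x (Sum.inr (C b)) = 0 := h6 b
    show t * x (Sum.inr (C b)) = 0
    rw [e, mul_zero]
  · intro h0
    apply h7
    funext l
    have := congrFun h0 l
    exact (mul_eq_zero.1 this).resolve_left ht
  · intro w hw hwC
    obtain ⟨s, hs⟩ := h8 w hw hwC
    refine ⟨s / t, ?_⟩
    rw [hs]
    funext l
    show s * x (Sum.inr l) = s / t * (t * x (Sum.inr l))
    field_simp

/-- **PNon** -/
theorem t_PNon : PNon := by
  classical
  intro R _ P hK I J H _ _ _ Ω hI sI sJ F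
  induction F using Finset.induction_on generalizing sI sJ with
  | empty =>
    refine Q_congr ?_ (hI sI sJ)
    intro K _ _ x
    simp [IncNFam]
  | insert e F heF ih =>
    have h1 := hK.opened (IncNFam R sI sJ Ω F) (X e) (ih sI sJ) ?_
    · refine Q_congr ?_ h1
      intro K _ _ x
      simp only [IncNFam, aeval_X, Finset.mem_insert, forall_eq_or_imp]
      tauto
    · rcases e with ⟨i, h⟩ | ⟨j, h⟩
      · refine Q_congr ?_ (ih (fun i' h' => sI i' h' ∧ ¬ (i' = i ∧ h' = h)) sJ)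
        intro K _ _ x
        simp only [IncNFam, IncFam, aeval_X]
        constructor
        · rintro ⟨⟨h1, h2, h3⟩, h4⟩
          exact ⟨⟨⟨fun i' h' hs => h1 i' h' fun hh => hs hh.1, h2, h3⟩, h4⟩,
            h1 i h fun hh => hh.2 ⟨rfl, rfl⟩⟩
        · rintro ⟨⟨⟨h1, h2, h3⟩, h4⟩, h5⟩
          refine ⟨⟨fun i' h' hs => ?_, h2, h3⟩, h4⟩
          by_cases hq : i' = i ∧ h' = h
          · rw [hq.1, hq.2]; exact h5
          · exact h1 i' h' fun hh => hs ⟨hh, hq⟩
      · refine Q_congr ?_ (ih sI (fun j' h' => sJ j' h' ∧ ¬ (j' = j ∧ h' = h)))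
        intro K _ _ x
        simp only [IncNFam, IncFam, aeval_X]
        constructor
        · rintro ⟨⟨h1, h2, h3⟩, h4⟩
          exact ⟨⟨⟨h1, fun j' h' hs => h2 j' h' fun hh => hs hh.1, h3⟩, h4⟩,
            h2 j h fun hh => hh.2 ⟨rfl, rfl⟩⟩
        · rintro ⟨⟨⟨h1, h2, h3⟩, h4⟩, h5⟩
          refine ⟨⟨h1, fun j' h' hs => ?_, h3⟩, h4⟩
          by_cases hq : j' = j ∧ h' = h
          · rw [hq.1, hq.2]; exact h5
          · exact h2 j' h' fun hh => hs ⟨hh, hq⟩

end Run7.h957.GH
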