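import Pool.Agent.Run7.h957.GH.Base

/-!
# Project GH (helper570): the piece PCons
-/

set_option autoImplicit false

open CategoryTheory AlgebraicGeometry MvPolynomial Pool.Agent.Y116.UV Pool.Agent.Z125.UN
  Pool.Agent.Q282.UZ Run7.h570.GH

namespace Run7.h957.GH

lemma det_ne_of_ker {K V : Type} [Field K] [Fintype V] [DecidableEq V] {A : Matrix V V K}
    (h : ∀ w : V → K, Matrix.mulVec A w = 0 → w = 0) : A.det ≠ 0 := by
  intro hdet
  obtain ⟨w, hw, hw0⟩ := Matrix.exists_mulVec_eq_zero_iff.2 hdet
  exact hw (h w hw0)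

lemma ker_of_det_ne {K V : Type} [Field K] [Fintype V] [DecidableEq V] {A : Matrix V V K}
    (h : A.det ≠ 0) (w : V → K) (hw : Matrix.mulVec A w = 0) : w = 0 := by
  by_contra hne
  exact h (Matrix.exists_mulVec_eq_zero_iff.1 ⟨w, hne, hw⟩)

lemma ind_mulVec {K V : Type} [Field K] [Fintype V] [DecidableEq V] {c : ℕ} (C : Fin c → V)
    (w : V → K) (l : V) :
    Matrix.mulVec (ind C : Matrix V V K) w l = open Classical in
      (if l ∈ Set.range C then w l else 0) := by
  classical
  unfold ind
  rw [Matrix.mulVec_diagonal]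
  split_ifs <;> simp

/-- if `w` is in the kernel of `M + ind C` and `u` is dual to `C`, then `w` vanishes on `C` -/
lemma vanish {K V : Type} [Field K] [Fintype V] [DecidableEq V] {c : ℕ} {C : Fin c → V}
    {M : Matrix V V K} (hsym : ∀ i j, M i j = M j i) {u : Fin c → V → K}
    (hu : ∀ a, Matrix.mulVec M (u a) = 0) (hd : ∀ a b, u a (C b) = if a = b then 1 else 0)
    {w : V → K} (hw : Matrix.mulVec (M + ind C) w = 0) (a : Fin c) : w (C a) = 0 := by
  classical
  have h1 : (u a) ⬝ᵥ (Matrix.mulVec (M + ind C) w) = 0 := by rw [hw, dotProduct_zero]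
  rw [Matrix.add_mulVec, dotProduct_add] at h1
  have h2 : (u a) ⬝ᵥ (Matrix.mulVec M w) = 0 := by
    rw [Matrix.dotProduct_mulVec]
    have hT : Matrix.vecMul (u a) M = Matrix.mulVec M (u a) := by
      have hMT : M.transpose = M := by
        ext i j
        exact hsym j i
      rw [← Matrix.mulVec_transpose, hMT]
    rw [hT, hu a, zero_dotProduct]
  rw [h2, zero_add] at h1
  have h3 : (u a) ⬝ᵥ (Matrix.mulVec (ind C : Matrix V V K) w) = w (C a) := by
    unfold dotProduct
    rw [Finset.sum_eq_single (C a)]
    · rw [ind_mulVec, if_pos ⟨a, rfl⟩, hd a a, if_pos rfl, one_mul]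
    · intro l _ hl
      rw [ind_mulVec]
      split_ifs with hr
      · obtain ⟨b, rfl⟩ := hr
        rw [hd a b, if_neg (fun h => hl (by rw [h])), zero_mul]
      · rw [mul_zero]
    · intro h
      exact absurd (Finset.mem_univ _) h
  rw [h3] at h1
  exact h1

/-- **PCons** -/
theorem t_PCons : PCons := by
  classical
  intro R _ P hK V _ _ c G C p τ' hτ' hQ
  obtain ⟨κ, G1, w1, hIs⟩ := Rep_FlagFam (R := R) G (Fin.cons p C : Fin (c + 1) → V) τ'
  refine ⟨κ, G1, w1, hIs, ?_⟩
  have hp : τ' p = 1 := by
    have := hτ' 0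
    simpa using this
  have hC : ∀ b : Fin c, τ' (C b) = b.1 + 2 := by
    intro b
    have := hτ' b.succ
    simpa using this
  refine hK.iso _ (FlagFam R G (Fin.cons p C : Fin (c + 1) → V) τ')
    (fun K _ _ x t => match t with
      | Sum.inl q => x (Sum.inl (Sum.inl q))
      | Sum.inr (a, l) => (Fin.cons (x (Sum.inr l)) (fun a' : Fin c =>
          x (Sum.inl (Sum.inr (a', l)))) : Fin (c + 1) → K) a)
    (fun K _ _ y s => match s with
      | Sum.inl (Sum.inl q) => y (Sum.inl q)
      | Sum.inl (Sum.inr (a, l)) => y (Sum.inr (a.succ, l))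
      | Sum.inr l => y (Sum.inr (0, l))) ?_ ?_ ?_ ?_ ?_ ?_ hQ G1 w1 hIs
  · rintro (q | ⟨a, l⟩)
    · exact ⟨X (Sum.inl (Sum.inl q)), 1, fun K _ _ x _ => by simp⟩
    · refine Fin.cases ?_ (fun a' => ?_) a
      · exact ⟨X (Sum.inr l), 1, fun K _ _ x _ => by simp⟩
      · exact ⟨X (Sum.inl (Sum.inr (a', l))), 1, fun K _ _ x _ => by simp⟩
  · rintro ((q | ⟨a, l⟩) | l)
    · exact ⟨X (Sum.inl q), 1, fun K _ _ x _ => by simp⟩
    · exact ⟨X (Sum.inr (a.succ, l)), 1, fun K _ _ x _ => by simp⟩
    · exact ⟨X (Sum.inr (0, l)), 1, fun K _ _ x _ => by simp⟩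
  · -- into the flag family
    rintro K _ _ x ⟨⟨h1, h2, h3, h4, h5, h6, h7, h8⟩, h9, h10, h11⟩
    set M : Matrix V V K := Run7.h570.GH.mt fun s => x (Sum.inl s) with hM
    set u : Fin c → V → K := vc fun s => x (Sum.inl s) with hu
    set v : V → K := fun l => x (Sum.inr l) with hv
    set u' : Fin (c + 1) → V → K := Fin.cons v u with hu'
    have hvc : ∀ a l, (Fin.cons (x (Sum.inr l)) (fun a' : Fin c =>
        x (Sum.inl (Sum.inr (a', l)))) : Fin (c + 1) → K) a = u' a l := by
      intro a l
      refine Fin.cases ?_ (fun a' => ?_) a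
      · rfl
      · rfl
    have hu1 : ∀ a, Matrix.mulVec M (u' a) = 0 := by
      intro a
      refine Fin.cases ?_ (fun a' => ?_) a
      · exact h5
      · exact h2 a'
    have hu2 : ∀ a b, u' a ((Fin.cons p C : Fin (c + 1) → V) b) = if a = b then 1 else 0 := by
      intro a b
      refine Fin.cases ?_ (fun a' => ?_) a
      · refine Fin.cases ?_ (fun b' => ?_) b
        · rw [if_pos rfl]
          exact h9
        · have := h6 b'
          simp only [hu', Fin.cons_zero, Fin.cons_succ]
          rw [if_neg (Fin.succ_ne_zero b').symm]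
          exact this
      · refine Fin.cases ?_ (fun b' => ?_) b
        · simp only [hu', Fin.cons_zero, Fin.cons_succ]
          rw [if_neg (Fin.succ_ne_zero a')]
          refine h4.1 a' p ?_
          simp only [hp]
          omega
        · simp only [hu', Fin.cons_succ, Fin.succ_inj]
          exact h3 a' b'
    have hdet : (M + ind (Fin.cons p C : Fin (c + 1) → V)).det ≠ 0 := by
      refine det_ne_of_ker fun w hw => ?_
      have hwC := fun a => vanish h1.1 hu1 hu2 hw a
      have hMw : Matrix.mulVec M w = 0 := by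
        rw [Matrix.add_mulVec] at hw
        have : Matrix.mulVec (ind (Fin.cons p C : Fin (c + 1) → V) : Matrix V V K) w = 0 := by
          funext l
          rw [ind_mulVec]
          split_ifs with hr
          · obtain ⟨b, rfl⟩ := hr
            exact hwC b
          · rfl
        rw [this, add_zero] at hw
        exact hw
      obtain ⟨t, ht⟩ := h8 w hMw (fun b => by simpa using hwC b.succ)
      have h12 : w p = 0 := by simpa using hwC 0
      rw [ht] at h12
      have h13 : t * v p = 0 := h12
      have h14 : v p = 1 := h9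
      rw [h14, mul_one] at h13
      rw [ht, h13, zero_smul]
    have hmt : (Run7.h570.GH.mt fun t : (V × V) ⊕ (Fin (c + 1) × V) => (match t with
      | Sum.inl q => x (Sum.inl (Sum.inl q))
      | Sum.inr (a, l) => (Fin.cons (x (Sum.inr l)) (fun a' : Fin c =>
          x (Sum.inl (Sum.inr (a', l)))) : Fin (c + 1) → K) a : K)) = M := rfl
    have hvc' : (vc fun t : (V × V) ⊕ (Fin (c + 1) × V) => (match t with
      | Sum.inl q => x (Sum.inl (Sum.inl q))
      | Sum.inr (a, l) => (Fin.cons (x (Sum.inr l)) (fun a' : Fin c =>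
          x (Sum.inl (Sum.inr (a', l)))) : Fin (c + 1) → K) a : K)) = u' := by
      funext a l
      exact hvc a l
    refine ⟨⟨h1, ?_, ?_, ?_⟩, ?_, ?_⟩
    · rw [hvc', hmt]; exact hu1
    · rw [hvc']; exact hu2
    · rw [hmt]; exact hdet
    · rw [hvc']
      intro a l
      refine Fin.cases ?_ (fun a' => ?_) a
      · intro hl
        refine h10 l (Finset.mem_filter.2 ⟨Finset.mem_univ _, ?_⟩)
        have : τ' l < 0 + 1 := hl
        omega
      · intro hl
        refine h4.1 a' l ?_
        have : τ' l < a'.1 + 1 + 1 := hl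
        simp only
        omega
    · rw [hvc']
      intro a l
      refine Fin.cases ?_ (fun a' => ?_) a
      · intro hl
        refine h11 l (Finset.mem_filter.2 ⟨Finset.mem_univ _, ?_⟩)
        have : τ' l = 0 + 1 := hl
        omega
      · intro hl
        refine h4.2 a' l ?_
        have : τ' l = a'.1 + 1 + 1 := hl
        simp only
        omega
  · -- back
    rintro K _ _ y ⟨⟨h1, h2, h3, h4⟩, h5, h6⟩
    set u' : Fin (c + 1) → V → K := vc y with hu'
    have hv : ∀ l, u' 0 l = y (Sum.inr (0, l)) := fun l => rfl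
    refine ⟨⟨h1, ?_, ?_, ⟨?_, ?_⟩, ?_, ?_, ?_, ?_⟩, ?_, ?_, ?_⟩
    · intro a
      exact h2 a.succ
    · intro a b
      have := h3 a.succ b.succ
      simp only [Fin.cons_succ, Fin.succ_inj] at this
      exact this
    · intro a l hl
      refine h5 a.succ l ?_
      have : τ' l - 1 < a.1 + 1 := hl
      rw [Fin.val_succ]
      omega
    · intro a l hl
      refine h6 a.succ l ?_
      have : τ' l - 1 = a.1 + 1 := hl
      rw [Fin.val_succ]
      omega
    · exact h2 0
    · intro b
      have := h3 0 b.succ
      rw [if_neg (Fin.succ_ne_zero b).symm, Fin.cons_succ] at this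
      exact this
    · intro h0
      have h7 := h3 0 0
      rw [if_pos rfl, Fin.cons_zero] at h7
      have h8 := congrFun h0 p
      have h9 : u' 0 p = 0 := h8
      rw [h9] at h7
      exact zero_ne_one h7
    · intro w hw hwC
      refine ⟨w p, ?_⟩
      have h7 := h3 0 0
      rw [if_pos rfl, Fin.cons_zero] at h7
      have hz : w - w p • u' 0 = 0 := by
        refine ker_of_det_ne h4 _ ?_
        rw [Matrix.add_mulVec]
        have e1 : Matrix.mulVec (Run7.h570.GH.mt y) (w - w p • u' 0) = 0 := by
          rw [Matrix.mulVec_sub, Matrix.mulVec_smul, h2 0, smul_zero, sub_zero]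
          exact hw
        have e2 : Matrix.mulVec (ind (Fin.cons p C : Fin (c + 1) → V) : Matrix V V K)
            (w - w p • u' 0) = 0 := by
          funext l
          rw [ind_mulVec]
          split_ifs with hr
          · obtain ⟨b, rfl⟩ := hr
            refine Fin.cases ?_ (fun b' => ?_) b
            · simp [h7]
            · have h8 := h3 0 b'.succ
              rw [if_neg (Fin.succ_ne_zero b').symm, Fin.cons_succ] at h8
              have h9 := hwC b'
              simp [h8, h9]
          · rfl
        rw [e1, e2, add_zero]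
      rw [sub_eq_zero] at hz
      exact hz
    · have h7 := h3 0 0
      rw [if_pos rfl, Fin.cons_zero] at h7
      exact h7
    · intro l hl
      have h7 := (Finset.mem_filter.1 hl).2
      refine h5 0 l ?_
      rw [h7]
      simp
    · intro l hl
      have h7 := (Finset.mem_filter.1 hl).2
      refine h6 0 l ?_
      rw [h7]
      simp
  · intro K _ _ x _
    funext s
    rcases s with (q | ⟨a, l⟩) | l
    · rfl
    · rfl
    · rfl
  · intro K _ _ y _
    funext t
    rcases t with q | ⟨a, l⟩
    · rfl
    · refine Fin.cases ?_ (fun a' => ?_) a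
      · rfl
      · rfl

end Run7.h957.GH
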