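import Pool.Agent.Run7.h957.GH.Base

/-!
# Project GH (helper570): the piece PFlags
-/

set_option autoImplicit false

open CategoryTheory AlgebraicGeometry MvPolynomial Pool.Agent.Y116.UV Pool.Agent.Z125.UN
  Pool.Agent.Q282.UZ Run7.h570.GH

namespace Run7.h957.GH

variable {R : Type} [CommRing R]

/-- **PFlags** -/
theorem t_PFlags : PFlags := by
  classical
  intro R _ P hK V _ _ c G C hC hflag
  -- a set with `Q`, and the empty set
  obtain ⟨τ0, hτ0⟩ : ∃ τ : V → ℕ, ∀ b, τ (C b) = b.1 + 1 := by
    refine ⟨fun l => if h : ∃ b, C b = l then h.choose.1 + 1 else 0, fun b => ?_⟩
    have hex : ∃ b', C b' = C b := ⟨b, rfl⟩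
    simp only
    rw [dif_pos hex, hC hex.choose_spec]
  have hQ0 := hflag τ0 hτ0
  have hempty : ∀ S : Fam R ((V × V) ⊕ (Fin c × V)),
      (∀ (K : Type) [Field K] [Algebra R K] (x : (V × V) ⊕ (Fin c × V) → K), ¬ S K x) →
      Q P S := by
    intro S hS
    have h1 := hK.opened (FlagFam R G C τ0) 0 hQ0 (Q_congr (by intro K _ _ x; simp) hQ0)
    refine Q_congr ?_ h1
    intro K _ _ x
    constructor
    · rintro ⟨_, h2⟩
      exact absurd (map_zero _) h2
    · intro h2
      exact absurd h2 (hS K x)
  -- induction
  have main : ∀ (n : ℕ) (h : V → ℕ) (F : Finset V), (∀ l, h l ≤ c) →
      ∑ l ∈ Fᶜ, (h l + 1) ≤ n → Q P (HFam R G C h F) := by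
    intro n
    induction n with
    | zero =>
      intro h F hhc hn
      have hF : F = Finset.univ := by
        rw [← Finset.compl_eq_empty_iff, Finset.eq_empty_iff_forall_notMem]
        intro l hl
        have := Finset.single_le_sum (f := fun l => h l + 1) (fun _ _ => Nat.zero_le _) hl
        omega
      subst hF
      refine Q_congr (fun K _ _ x => (HFam_univ G C h K x).symm) ?_
      by_cases hh : ∀ b, h (C b) = b.1 + 1
      · exact hflag h hh
      · push Not at hh
        obtain ⟨b, hb⟩ := hh
        refine hempty _ ?_
        rintro K _ _ x ⟨⟨_, _, h3, _⟩, h5, h6⟩
        have h7 := h3 b b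
        rw [if_pos rfl] at h7
        by_cases hlt : h (C b) < b.1 + 1
        · rw [h5 b (C b) hlt] at h7
          exact zero_ne_one h7
        · have hle := hhc (C b)
          have h8 := h6 ⟨h (C b) - 1, by omega⟩ (C b) (by simp only; omega)
          rw [h3 _ b, if_neg] at h8
          · exact h8 rfl
          · intro hh
            have := congrArg Fin.val hh
            simp only at this
            omega
    | succ n ih =>
      intro h F hhc hn
      by_cases hF : F = Finset.univ
      · exact ih h F hhc (by rw [hF]; simp)
      · obtain ⟨l, hl⟩ : ∃ l, l ∉ F := by
          by_contra hcon
          push Not at hcon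
          exact hF (Finset.eq_univ_iff_forall.2 hcon)
        have hlc : l ∈ Fᶜ := Finset.mem_compl.2 hl
        have hsum := Finset.add_sum_erase Fᶜ (fun l => h l + 1) hlc
        have hins : (insert l F)ᶜ = Fᶜ.erase l := by
          ext a
          simp only [Finset.mem_compl, Finset.mem_insert, Finset.mem_erase]
          tauto
        have hI : Q P (HFam R G C h (insert l F)) := by
          refine ih h _ hhc ?_
          rw [hins]
          omega
        rcases Nat.eq_zero_or_pos (h l) with h0 | h0
        · refine Q_congr ?_ hI
          intro K _ _ x
          simp only [HFam, Finset.mem_insert, forall_eq_or_imp, h0]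
          constructor
          · rintro ⟨h1, h2, _, h3⟩
            exact ⟨h1, h2, h3⟩
          · rintro ⟨h1, h2, h3⟩
            exact ⟨h1, h2, fun a ha => by omega, h3⟩
        · have hlt : h l - 1 < c := by have := hhc l; omega
          set a0 : Fin c := ⟨h l - 1, hlt⟩ with ha0
          refine hK.total _ (X (Sum.inr (a0, l))) (Rep_HFam G C h F) ?_ ?_
          · -- the entry is zero
            refine Q_congr ?_ (ih (Function.update h l (h l - 1)) F ?_ ?_)
            · intro K _ _ x
              simp only [HFam, aeval_X]
              constructor
              · rintro ⟨h1, h2, h3⟩
                refine ⟨⟨h1, ?_, ?_⟩, ?_⟩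
                · intro a l' hl'
                  refine h2 a l' ?_
                  by_cases hll : l' = l
                  · subst hll
                    rw [Function.update_self]
                    omega
                  · rw [Function.update_of_ne hll]
                    exact hl'
                · intro l' hl' a hal
                  have hll : l' ≠ l := fun hh => hl (hh ▸ hl')
                  refine h3 l' hl' a ?_
                  rw [Function.update_of_ne hll]
                  exact hal
                · refine h2 a0 l ?_
                  rw [Function.update_self]
                  simp only [ha0]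
                  omega
              · rintro ⟨⟨h1, h2, h3⟩, h4⟩
                refine ⟨h1, ?_, ?_⟩
                · intro a l' hl'
                  by_cases hll : l' = l
                  · subst hll
                    rw [Function.update_self] at hl'
                    by_cases haa : a = a0
                    · rw [haa]; exact h4
                    · refine h2 a l' ?_
                      have : a.1 ≠ h l' - 1 := fun hh => haa (Fin.ext hh)
                      omega
                  · rw [Function.update_of_ne hll] at hl'
                    exact h2 a l' hl'
                · intro l' hl' a hal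
                  have hll : l' ≠ l := fun hh => hl (hh ▸ hl')
                  rw [Function.update_of_ne hll] at hal
                  exact h3 l' hl' a hal
            · intro l'
              by_cases hll : l' = l
              · subst hll
                rw [Function.update_self]
                exact (Nat.sub_le _ _).trans (hhc _)
              · rw [Function.update_of_ne hll]
                exact hhc _
            · have hsum2 := Finset.add_sum_erase Fᶜ
                (fun l' => Function.update h l (h l - 1) l' + 1) hlc
              have hcong : ∑ x ∈ Fᶜ.erase l, (Function.update h l (h l - 1) x + 1) =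
                  ∑ x ∈ Fᶜ.erase l, (h x + 1) := by
                refine Finset.sum_congr rfl fun x hx => ?_
                rw [Function.update_of_ne (Finset.ne_of_mem_erase hx)]
              rw [hcong, Function.update_self] at hsum2
              omega
          · -- the entry is not zero
            refine Q_congr ?_ hI
            intro K _ _ x
            simp only [HFam, Finset.mem_insert, forall_eq_or_imp, aeval_X]
            constructor
            · rintro ⟨h1, h2, h3, h4⟩
              refine ⟨⟨h1, h2, h4⟩, ?_⟩
              exact h3 a0 (by simp only [ha0]; omega)
            · rintro ⟨⟨h1, h2, h4⟩, h5⟩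
              refine ⟨h1, h2, fun a ha => ?_, h4⟩
              have : a = a0 := Fin.ext (by simp only [ha0]; omega)
              rw [this]
              exact h5
  refine Q_congr ?_ (main _ (fun _ => c) ∅ (fun _ => le_rfl) le_rfl)
  intro K _ _ x
  simp only [HFam, Finset.notMem_empty, false_implies, implies_true, and_true]
  constructor
  · exact fun h => h.1
  · intro h
    exact ⟨h, fun a l hl => absurd hl (by have := a.2; omega)⟩

end Run7.h957.GH
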