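import Pool.Agent.Run7.h570.GH.Iface
import Pool.Agent.Helper428.MatrixTree

/-!
# Project GH (helper570): the piece PTree (weighted matrix-tree theorem over any commutative ring)
-/

set_option autoImplicit false

open CategoryTheory AlgebraicGeometry MvPolynomial Pool.Agent.Y116.UV Pool.Agent.Z125.UN
  Pool.Agent.Q282.UZ Run7.h570.GH

namespace Run7.h957.GH

open Pool.Agent.Helper428.MatrixTree (Mr det_Mr sum_Tf)

lemma map_ev {A B : Type} [CommRing A] [CommRing B] (f : A →+* B) {n : ℕ}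
    (Γ : SimpleGraph (Fin n)) (u v : Fin n) :
    MvPolynomial.map f (ev A Γ u v) = ev B Γ u v := by
  classical
  unfold ev
  split_ifs with h
  · rw [MvPolynomial.map_X]
  · rw [map_zero]

lemma map_kirch {A B : Type} [CommRing A] [CommRing B] (f : A →+* B) {n : ℕ}
    (Γ : SimpleGraph (Fin (n + 1))) :
    MvPolynomial.map f (kirch A Γ) = kirch B Γ := by
  classical
  unfold kirch
  rw [RingHom.map_det]
  congr 1
  ext1 i j
  simp only [RingHom.mapMatrix_apply, Matrix.map_apply, Matrix.of_apply]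
  split_ifs with h
  · rw [map_sum]
    exact Finset.sum_congr rfl fun v _ => map_ev f Γ _ _
  · rw [map_neg, map_ev]

/-- the weights of the edges -/
noncomputable def wt {n : ℕ} (Γ : SimpleGraph (Fin n)) (x : Γ.edgeSet → ℝ) (e : Sym2 (Fin n)) : ℝ :=
  open Classical in if h : e ∈ Γ.edgeSet then x ⟨e, h⟩ else 0

lemma wt_diag {n : ℕ} (Γ : SimpleGraph (Fin n)) (x : Γ.edgeSet → ℝ) (e : Sym2 (Fin n))
    (he : e.IsDiag) : wt Γ x e = 0 := by
  classical
  unfold wt
  rw [dif_neg]
  intro h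
  exact SimpleGraph.not_isDiag_of_mem_edgeSet Γ h he

lemma eval_ev {n : ℕ} (Γ : SimpleGraph (Fin n)) (x : Γ.edgeSet → ℝ) (u v : Fin n) :
    MvPolynomial.eval x (ev ℝ Γ u v) = wt Γ x s(u, v) := by
  classical
  unfold ev wt
  by_cases h : Γ.Adj u v
  · rw [dif_pos h, dif_pos (show s(u, v) ∈ Γ.edgeSet from h), MvPolynomial.eval_X]
  · rw [dif_neg h, dif_neg (show ¬ s(u, v) ∈ Γ.edgeSet from h), map_zero]

lemma eval_kirch {n : ℕ} (Γ : SimpleGraph (Fin (n + 1))) (x : Γ.edgeSet → ℝ) :
    MvPolynomial.eval x (kirch ℝ Γ) =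
      (Mr (0 : Fin (n + 1)) (fun i j => wt Γ x s(i, j))).det := by
  classical
  rw [Matrix.det_succ_row_zero, Finset.sum_eq_single 0]
  · have h0 : Mr (0 : Fin (n + 1)) (fun i j => wt Γ x s(i, j)) 0 0 = 1 := by
      simp [Mr]
    rw [h0]
    unfold kirch
    rw [RingHom.map_det]
    simp only [Fin.val_zero, pow_zero, mul_one, one_mul]
    congr 1
    ext i j
    simp only [RingHom.mapMatrix_apply, Matrix.map_apply, Matrix.of_apply, Matrix.submatrix_apply,
      Fin.succAbove_zero, Mr, if_neg (Fin.succ_ne_zero i)]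
    by_cases hij : i = j
    · subst hij
      rw [if_pos rfl, if_pos rfl, map_sum, wt_diag Γ x s(i.succ, i.succ) (by simp), sub_zero]
      exact Finset.sum_congr rfl fun v _ => eval_ev Γ x _ _
    · rw [if_neg hij, if_neg (fun h => hij (Fin.succ_injective _ h).symm), map_neg, eval_ev,
        zero_sub]
  · intro b _ hb
    have h0 : Mr (0 : Fin (n + 1)) (fun i j => wt Γ x s(i, j)) 0 b = 0 := by
      simp [Mr, hb]
    rw [h0, mul_zero, zero_mul]
  · intro h
    exact absurd (Finset.mem_univ _) h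

open Classical in
lemma tree_sum {n : ℕ} (Γ : SimpleGraph (Fin (n + 1))) (x : Γ.edgeSet → ℝ) :
    ∑ T ∈ (Finset.univ : Finset (Finset (Sym2 (Fin (n + 1))))).filter
      (fun T : Finset (Sym2 (Fin (n + 1))) =>
        (SimpleGraph.fromEdgeSet (T : Set (Sym2 (Fin (n + 1))))).IsTree), ∏ e ∈ T, wt Γ x e =
    ∑ T ∈ Finset.univ.filter (fun T : Finset Γ.edgeSet =>
      (SimpleGraph.fromEdgeSet (Subtype.val '' (T : Set Γ.edgeSet))).IsTree), ∏ e ∈ T, x e := by
  symm
  have hinj : Function.Injective (Subtype.val : Γ.edgeSet → Sym2 (Fin (n + 1))) :=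
    Subtype.val_injective
  set φ : Finset Γ.edgeSet → Finset (Sym2 (Fin (n + 1))) := fun T => T.map ⟨Subtype.val, hinj⟩
    with hφ
  have hφc : ∀ T, ((φ T : Finset (Sym2 (Fin (n + 1)))) : Set (Sym2 (Fin (n + 1)))) =
      Subtype.val '' (T : Set Γ.edgeSet) := by
    intro T
    simp [hφ]
  have hφi : Function.Injective φ := Finset.map_injective _
  have hφp : ∀ T, ∏ e ∈ φ T, wt Γ x e = ∏ e ∈ T, x e := by
    intro T
    simp only [hφ, Finset.prod_map, Function.Embedding.coeFn_mk]
    refine Finset.prod_congr rfl fun e _ => ?_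
    unfold wt
    rw [dif_pos e.2]
  rw [← Finset.sum_subset (s₁ := (Finset.univ.filter (fun T : Finset Γ.edgeSet =>
      (SimpleGraph.fromEdgeSet (Subtype.val '' (T : Set Γ.edgeSet))).IsTree)).image φ)]
  · rw [Finset.sum_image (fun a _ b _ h => hφi h)]
    exact Finset.sum_congr rfl fun T _ => (hφp T).symm
  · intro T hT
    rw [Finset.mem_image] at hT
    obtain ⟨T', hT', rfl⟩ := hT
    rw [Finset.mem_filter] at hT' ⊢
    refine ⟨Finset.mem_univ _, ?_⟩
    rw [hφc]
    exact hT'.2
  · intro T hT hT2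
    rw [Finset.mem_filter] at hT
    by_cases hsub : ∀ e ∈ T, e ∈ Γ.edgeSet
    · exfalso
      apply hT2
      rw [Finset.mem_image]
      refine ⟨T.subtype (fun e => e ∈ Γ.edgeSet), ?_, ?_⟩
      · rw [Finset.mem_filter]
        refine ⟨Finset.mem_univ _, ?_⟩
        rw [← hφc]
        have : φ (T.subtype (fun e => e ∈ Γ.edgeSet)) = T := Finset.subtype_map_of_mem hsub
        rw [this]
        exact hT.2
      · exact Finset.subtype_map_of_mem hsub
    · push Not at hsub
      obtain ⟨e, he, heΓ⟩ := hsub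
      refine Finset.prod_eq_zero he ?_
      unfold wt
      rw [dif_neg heΓ]

lemma tree_real {n : ℕ} (Γ : SimpleGraph (Fin (n + 1))) :
    open Classical in
    kirch ℝ Γ = ∑ T ∈ Finset.univ.filter (fun T : Finset Γ.edgeSet =>
      (SimpleGraph.fromEdgeSet (Subtype.val '' (T : Set Γ.edgeSet))).IsTree), ∏ e ∈ T, X e := by
  classical
  refine MvPolynomial.funext fun x => ?_
  rw [eval_kirch, det_Mr, sum_Tf 0 (wt Γ x) (wt_diag Γ x), tree_sum, map_sum]
  refine Finset.sum_congr rfl fun T _ => ?_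
  rw [map_prod]
  exact Finset.prod_congr rfl fun e _ => (MvPolynomial.eval_X e).symm

lemma map_trees {A B : Type} [CommRing A] [CommRing B] (f : A →+* B) {n : ℕ}
    (Γ : SimpleGraph (Fin (n + 1))) :
    open Classical in
    MvPolynomial.map f (∑ T ∈ Finset.univ.filter (fun T : Finset Γ.edgeSet =>
      (SimpleGraph.fromEdgeSet (Subtype.val '' (T : Set Γ.edgeSet))).IsTree), ∏ e ∈ T, X e) =
    ∑ T ∈ Finset.univ.filter (fun T : Finset Γ.edgeSet =>
      (SimpleGraph.fromEdgeSet (Subtype.val '' (T : Set Γ.edgeSet))).IsTree), ∏ e ∈ T, X e := by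
  classical
  rw [map_sum]
  refine Finset.sum_congr rfl fun T _ => ?_
  rw [map_prod]
  exact Finset.prod_congr rfl fun e _ => MvPolynomial.map_X f e

/-- **PTree** -/
theorem t_PTree : PTree := by
  intro R _ n Γ
  have hZ : open Classical in
      kirch ℤ Γ = ∑ T ∈ Finset.univ.filter (fun T : Finset Γ.edgeSet =>
      (SimpleGraph.fromEdgeSet (Subtype.val '' (T : Set Γ.edgeSet))).IsTree), ∏ e ∈ T, X e := by
    apply MvPolynomial.map_injective (Int.castRingHom ℝ) Int.cast_injective
    rw [map_kirch, map_trees]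
    exact tree_real Γ
  have h := congrArg (MvPolynomial.map (Int.castRingHom R)) hZ
  rw [map_kirch, map_trees] at h
  exact h

end Run7.h957.GH
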